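import Mathlib
import Pool.Agent.N988.EC.Defs

/-!
# First-passage percolation on hierarchical lattices: definitions

The lattices `H n` (edges `Edge b n`, vertices `Pt b n`, the ends `bd n e s` of the edge `e`) are
defined in `Pool.Agent.N988.EA.Defs`; `iid (coin p) b n` in `Pool.Agent.N988.EC.Defs` is the law of
independent coins at all edges, `true` with probability `p`.
-/

open MeasureTheory
open Pool.Agent.N988.EA

namespace Pool.Agent.N988.EP

noncomputable section

/-- The steps `l` (edges with the side at which the step starts) lead from `x` to `y`. -/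
def Leads {b n : ℕ} : List (Edge b n × Bool) → Pt b n → Pt b n → Prop
  | [], x, y => x = y
  | q :: l, x, y => bd n q.1 q.2 = x ∧ Leads l (bd n q.1 (!q.2)) y

/-- The weight of an edge: `1` if `w e` is `true`, else `0`. -/
def wgt {b n : ℕ} (w : Edge b n → Bool) (e : Edge b n) : ℕ := if w e then 1 else 0

/-- The passage time of a path. -/
def time {b n : ℕ} (w : Edge b n → Bool) (l : List (Edge b n × Bool)) : ℕ :=
  (l.map fun q => wgt w q.1).sum

/-- The first-passage time from `A` to `B`. -/
def fpt {b n : ℕ} (w : Edge b n → Bool) (A B : Set (Pt b n)) : ℕ :=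
  sInf {t | ∃ l, ∃ x ∈ A, ∃ y ∈ B, Leads l x y ∧ time w l = t}

/-- The first-passage time from the edge `e` to the two ends of `H n`. -/
def far {b n : ℕ} (w : Edge b n → Bool) (e : Edge b n) : ℕ :=
  fpt w (Set.range (bd n e)) (Set.range Sum.inl)

/-- The first-passage time between the two ends of `H n`. -/
def across {b n : ℕ} (w : Edge b n → Bool) : ℕ := fpt w {.inl false} {.inl true}

end

end Pool.Agent.N988.EP
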