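import Mathlib
import Pool.Agent.N988.EP.Defs

/-!
# First-passage percolation on hierarchical lattices: statements of the parts
-/

open MeasureTheory Set Filter
open scoped Topology
open Pool.Agent.N988.EA Pool.Agent.N988.EC

namespace Pool.Agent.N988.EP

noncomputable section

/-- The restriction of `w` to the half `s` of the branch `i`. -/
def sub {b n : ℕ} (w : Edge b (n + 1) → Bool) (i : Fin b) (s : Bool) : Edge b n → Bool :=
  fun e => w (i, s, e)

/-- The first-passage time between the ends, by recursion. -/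
def Y {b : ℕ} : (n : ℕ) → (Edge b n → Bool) → ℕ
  | 0, w => if w () then 1 else 0
  | n + 1, w => ⨅ i : Fin b, (Y n (sub w i false) + Y n (sub w i true))

/-- Potentials: the difference along each edge is at most the weight. -/
def Pot {b n : ℕ} (w : Edge b n → Bool) (f : Pt b n → ℤ) : Prop :=
  ∀ e, |f (bd n e false) - f (bd n e true)| ≤ wgt w e

/-- P1, S_CUR: currying of product measures (compare `S_H` and `Pool/Agent/N80/EA_H.lean`). -/
def S_CUR : Prop := ∀ (b n : ℕ) (α : Type) [MeasurableSpace α] (ν : Measure α)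
  [IsProbabilityMeasure ν],
  (iid ν b (n + 1)).map (fun w (c : Fin b × Bool) e => w (c.1, c.2, e)) =
    Measure.pi fun _ : Fin b × Bool => iid ν b n

/-- P2, S_POT: potentials and paths. (1) A potential bounds the first-passage time from below
(induction on the path; some path exists because `H n` is connected for `b ≥ 1`). (2) The
first-passage time to the ends is a potential. -/
def S_POT : Prop := ∀ (b : ℕ), 1 ≤ b → ∀ (n : ℕ) (w : Edge b n → Bool),
  (∀ (f : Pt b n → ℤ) (A B : Set (Pt b n)) (a : ℤ), A.Nonempty → B.Nonempty → Pot w f →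
    (∀ x ∈ A, a ≤ f x) → (∀ y ∈ B, f y ≤ 0) → a ≤ fpt w A B) ∧
  ∃ f : Pt b n → ℤ, Pot w f ∧ (∀ s, f (.inl s) = 0) ∧ (∀ x, 0 ≤ f x) ∧
    ∀ e s, (far w e : ℤ) ≤ f (bd n e s)

/-- P3, S_EXT: potentials with given values at the ends. Proof by induction: for each branch there
is a value at the middle vertex between the two. -/
def S_EXT : Prop := ∀ (b n : ℕ) (w : Edge b n → Bool) (a c : ℤ), |a - c| ≤ Y n w →
  ∃ f : Pt b n → ℤ, Pot w f ∧ f (.inl false) = a ∧ f (.inl true) = c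

/-- P4, S_UP: paths (upper bounds). (1) `across ≤ Y` (concatenation of paths of the two halves of
the best branch). (2) From an edge of the half `s` of the branch `i` go to an end of the half; if it
is the middle vertex go on through the other half. -/
def S_UP : Prop := ∀ (b : ℕ), 1 ≤ b →
  (∀ (n : ℕ) (w : Edge b n → Bool), across w ≤ Y n w) ∧
  (∀ (w : Edge b 0 → Bool) (e : Edge b 0), far w e = 0) ∧
  ∀ (n : ℕ) (w : Edge b (n + 1) → Bool) (i : Fin b) (s : Bool) (e : Edge b n),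
    far w ((i, s, e) : Edge b (n + 1)) ≤ far (sub w i s) e + Y n (sub w i (!s))

/-- P5, S_LOW: potentials (lower bounds; from `S_POT`, `S_EXT`). (1) `across = Y` (with `S_UP`).
(2) Extend the potential of `S_POT` (2) of the cell by `0`. (3) Add `1` to it on the small cell
`(i, s)(j, !s)`, and `0` at the ends and on the other branches of the large lattice; between, use
`S_EXT`: the other half of the branch `j` joins the middle vertex of `j` (value `1`) to the end `s`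
(value `0`), the other branches `j'` join the middle vertex of the branch `i` (value `1`) to the end
`s`, and the half `!s` of the branch `i` joins it to the end `!s` (value `0`). -/
def S_LOW : Prop := ∀ (b : ℕ), 1 ≤ b →
  (∀ (n : ℕ) (w : Edge b n → Bool), across w = Y n w) ∧
  (∀ (n : ℕ) (w : Edge b (n + 1) → Bool) (i : Fin b) (s : Bool) (e : Edge b n),
    far (sub w i s) e ≤ far w ((i, s, e) : Edge b (n + 1))) ∧
  ∀ (n : ℕ) (w : Edge b (n + 2) → Bool) (i j : Fin b) (s : Bool) (e : Edge b n),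
    1 ≤ Y n (sub (sub w i s) j s) →
    (∀ j', j' ≠ j → 1 ≤ Y n (sub (sub w i s) j' false) + Y n (sub (sub w i s) j' true)) →
    1 ≤ Y (n + 1) (sub w i (!s)) →
    far (sub (sub w i s) j (!s)) e + 1 ≤ far w ((i, s, (j, !s, e)) : Edge b (n + 2))

/-- P6, S_LAW: the law of `Y` (from `S_CUR`). `P n` is the law for the probability `p` of weight
`0`. -/
def S_LAW : Prop := ∀ (b : ℕ), 1 ≤ b → ∀ p : ℝ, 0 ≤ p → p ≤ 1 →
  (iid (coin (1 - p)) b 0).real {w | Y 0 w = 0} = p ∧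
  ∀ n : ℕ,
    (iid (coin (1 - p)) b (n + 1)).real {w | Y (n + 1) w = 0} =
      1 - (1 - (iid (coin (1 - p)) b n).real {w | Y n w = 0} ^ 2) ^ b ∧
    (1 - (1 - (iid (coin (1 - p)) b n).real {w | Y n w = 0} ^ 2 -
      2 * (iid (coin (1 - p)) b n).real {w | Y n w = 0} *
        (iid (coin (1 - p)) b n).real {w | Y n w = 1}) ^ b =
      (iid (coin (1 - p)) b (n + 1)).real {w | Y (n + 1) w ≤ 1}) ∧
    ∀ j : ℕ, (iid (coin (1 - p)) b (n + 1)).real {w | 2 * j < Y (n + 1) w} ≤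
      (1 - (1 - (iid (coin (1 - p)) b n).real {w | j < Y n w}) ^ 2) ^ b

/-- P7, S_FIX (real analysis). The map `x ↦ 1 - (1 - x ^ 2) ^ b` has a unique fixed point `p` in
`(0, 1)`, with derivative larger than `1`. Proof: `(1 - (1 - x ^ 2) ^ b) / x` or
`log (1 - x) / log (1 - x ^ 2)` is monotone; near `0` the map is at most `b x ^ 2`, near `1` the
complement `u` is mapped to at most `(2 u) ^ b`. For the last part: if `u ≤ 1 - p - q` then the
iterates of `u ↦ (1 - (1 - u) ^ 2) ^ b` decrease to `0`, finally doubly exponentially. -/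
def S_FIX : Prop := ∀ (b : ℕ), 2 ≤ b → ∃ p : ℝ, 0 < p ∧ p < 1 ∧ 1 - (1 - p ^ 2) ^ b = p ∧
  (∀ x : ℕ → ℝ, 0 ≤ x 0 → (∀ n, x (n + 1) = 1 - (1 - x n ^ 2) ^ b) →
    (x 0 < p → Tendsto x atTop (𝓝 0)) ∧ (p < x 0 → x 0 ≤ 1 → Tendsto x atTop (𝓝 1))) ∧
  ∃ q C : ℝ, 0 < q ∧ q ≤ 1 - p ∧
    (∀ y : ℝ, q ≤ y → y ≤ 1 - p → p + q ≤ 1 - (1 - p ^ 2 - 2 * p * y) ^ b) ∧
    ∀ u : ℕ → ℝ, 0 ≤ u 0 → u 0 ≤ 1 - p - q → (∀ k, u (k + 1) = (1 - (1 - u k) ^ 2) ^ b) →
      ∀ m : ℕ, ∑ k ∈ Finset.range m, 2 ^ k * u k ≤ C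

/-- P8, S_EY: the mean of the first-passage time between the ends is bounded at the critical point
(from `S_LAW`; `p, q, C` as in `S_FIX`). Proof: `P (Y n = 0) = p`, and `P (Y n = 1) ≥ q` by
induction, so `P (1 < Y n) ≤ 1 - p - q`, hence `P (2 ^ k < Y n) ≤ u k` for `k ≤ n` by the last
part of `S_LAW` (the map `u ↦ (1 - (1 - u) ^ 2) ^ b` is increasing on `[0, 1]`), `Y n ≤ 2 ^ n`, and
`Y n ≤ 2 + ∑ k, 2 ^ (k + 1) * 1_{2 ^ k < Y n}`. -/
def S_EY : Prop := ∀ (b : ℕ), 2 ≤ b → ∀ p q C : ℝ, 0 < p → p < 1 → 1 - (1 - p ^ 2) ^ b = p →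
  0 < q → q ≤ 1 - p →
  (∀ y : ℝ, q ≤ y → y ≤ 1 - p → p + q ≤ 1 - (1 - p ^ 2 - 2 * p * y) ^ b) →
  (∀ u : ℕ → ℝ, 0 ≤ u 0 → u 0 ≤ 1 - p - q → (∀ k, u (k + 1) = (1 - (1 - u k) ^ 2) ^ b) →
      ∀ m : ℕ, ∑ k ∈ Finset.range m, 2 ^ k * u k ≤ C) →
  ∃ C' : ℝ, ∀ n : ℕ, ∫ w, (Y n w : ℝ) ∂(iid (coin (1 - p)) b n) ≤ C'

/-- P9, S_MU: the mean of `far` (from `S_CUR`, `S_UP`, `S_LOW`, `S_LAW`), for `p` with
`1 - (1 - p ^ 2) ^ b = p`. The event of the last part of `S_LOW` has the probability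
`(1 - p) ^ 2 * (1 - p ^ 2) ^ (b - 1)` and is independent of the small cell; it is enough to prove
the bound with this constant `c` for the edges with opposite halves (half of all edges). -/
def S_MU : Prop := ∀ (b : ℕ), 2 ≤ b → ∀ p C : ℝ, 0 < p → p < 1 → 1 - (1 - p ^ 2) ^ b = p →
  (∀ n : ℕ, ∫ w, (Y n w : ℝ) ∂(iid (coin (1 - p)) b n) ≤ C) →
  (∀ (n : ℕ) (e : Edge b n), ∫ w, (far w e : ℝ) ∂(iid (coin (1 - p)) b n) ≤ C * n) ∧
  ∃ c : ℝ, 0 < c ∧ ∀ n : ℕ,
    (Fintype.card (Edge b (n + 2)) : ℝ) / Fintype.card (Edge b n) *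
      ∑ e : Edge b n, ∫ w, (far w e : ℝ) ∂(iid (coin (1 - p)) b n) +
        c * Fintype.card (Edge b (n + 2)) ≤
      ∑ e : Edge b (n + 2), ∫ w, (far w e : ℝ) ∂(iid (coin (1 - p)) b (n + 2))

/-- The result. -/
def S_FP : Prop := ∀ (b : ℕ), 2 ≤ b → ∃ pc : ℝ, 0 < pc ∧ pc < 1 ∧
  (∀ p : ℝ, 0 ≤ p → p < pc →
    Tendsto (fun n : ℕ => (iid (coin (1 - p)) b n).real {w | across w = 0}) atTop (𝓝 0)) ∧
  (∀ p : ℝ, pc < p → p ≤ 1 →
    Tendsto (fun n : ℕ => (iid (coin (1 - p)) b n).real {w | across w = 0}) atTop (𝓝 1)) ∧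
  ∃ c C : ℝ, 0 < c ∧ ∀ n : ℕ, 2 ≤ n →
    (∀ e : Edge b n, ∫ w, (far w e : ℝ) ∂(iid (coin (1 - pc)) b n) ≤ C * n) ∧
    c * n ≤ (∑ e : Edge b n, ∫ w, (far w e : ℝ) ∂(iid (coin (1 - pc)) b n)) /
      Fintype.card (Edge b n)

end

end Pool.Agent.N988.EP
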