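import Pool.Agent.N988.EP.Stm
import Pool.Agent.N823.EP_CUR
import Pool.Agent.N252.EP_POT
import Pool.Agent.N371.EP_EXT
import Pool.Agent.N362.EP_UP
import Pool.Agent.N409.EP_LOW
import Pool.Agent.N530.EP_LAW
import Pool.Agent.N283.EP_FIX
import Pool.Agent.N391.EP_EY
import Pool.Agent.N527.EP_MU
import Pool.Agent.N942.EP_FP

/-!
# Critical first-passage percolation on hierarchical lattices: assembly
-/

namespace Pool.Agent.N988.EP

theorem k_CUR : S_CUR := Pool.Agent.N823.EP.t_CUR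
theorem k_UP : S_UP := Pool.Agent.N362.EP.t_UP
theorem k_LOW : S_LOW :=
  Pool.Agent.N409.EP.t_LOW Pool.Agent.N252.EP.t_POT Pool.Agent.N371.EP.t_EXT k_UP
theorem k_LAW : S_LAW := Pool.Agent.N530.EP.t_LAW k_CUR
theorem k_EY : S_EY := Pool.Agent.N391.EP.t_EY k_LAW
theorem k_MU : S_MU := Pool.Agent.N527.EP.t_MU k_CUR k_UP k_LOW k_LAW
theorem k_FP : S_FP := Pool.Agent.N942.EP.t_FP k_LOW k_LAW Pool.Agent.N283.EP.t_FIX k_EY k_MU

end Pool.Agent.N988.EP
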